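import Pool.Agent.W758.AHC.Stm2

set_option autoImplicit false

namespace Pool.Agent.W632.AHC

open Pool.Agent.W758.AHC

theorem cc_succ (k : ℕ) : cc (k + 1) = cc k * ((2 * k + 1) / (2 * k + 2)) := by
  unfold cc
  have h := Nat.succ_mul_centralBinom_succ k
  have h' : ((k : ℚ) + 1) * ((k + 1).centralBinom : ℚ) = 2 * (2 * k + 1) * (k.centralBinom : ℚ) := by
    exact_mod_cast h
  have hk : ((k : ℚ) + 1) ≠ 0 := by positivity
  have hk2 : (2 * (k : ℚ) + 2) ≠ 0 := by positivity
  have h4 : ((4 : ℚ) ^ k) ≠ 0 := by positivity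
  have e : ((k + 1).centralBinom : ℚ) = 2 * (2 * k + 1) * (k.centralBinom : ℚ) / (k + 1) := by
    field_simp
    linarith
  rw [e, pow_succ]
  field_simp
  ring

theorem cc_pos (k : ℕ) : 0 < cc k := by
  unfold cc
  have := Nat.centralBinom_pos k
  positivity

theorem cc_choose (l : ℕ) : (Nat.choose (2 * l) l : ℚ) = 4 ^ l * cc l := by
  unfold cc Nat.centralBinom
  have h4 : ((4 : ℚ) ^ l) ≠ 0 := by positivity
  field_simp

theorem M0_eq (m : ℕ) : (M0 m : ℚ) = 2 ^ m * cc ((m + 1) / 2) := by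
  rcases Nat.even_or_odd' m with ⟨a, h | h⟩
  · subst h
    have e1 : (2 * a + 1) / 2 = a := by omega
    have e2 : 2 * a / 2 = a := by omega
    rw [e1, M0, e2, cc_choose, pow_mul]
    norm_num
  · subst h
    have e1 : (2 * a + 1 + 1) / 2 = a + 1 := by omega
    have e2 : (2 * a + 1) / 2 = a := by omega
    rw [e1, M0, e2]
    have hc := cc_choose (a + 1)
    have hp : Nat.choose (2 * (a + 1)) (a + 1) = 2 * Nat.choose (2 * a + 1) a := by
      have : 2 * (a + 1) = (2 * a + 1) + 1 := by ring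
      rw [this, Nat.choose_succ_succ, Nat.choose_symm_half]
      ring
    rw [hp] at hc
    push_cast at hc
    have h2 : (2 : ℚ) ^ (2 * a + 1) * 2 = 4 ^ (a + 1) := by
      rw [← pow_succ, show 2 * a + 1 + 1 = 2 * (a + 1) by ring, pow_mul]
      norm_num
    have : 2 * ((Nat.choose (2 * a + 1) a : ℕ) : ℚ) = 2 * (2 ^ (2 * a + 1) * cc (a + 1)) := by
      rw [hc, ← h2]
      ring
    linarith

theorem cc_anti : Antitone cc := by
  apply antitone_nat_of_succ_le
  intro k
  rw [cc_succ]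
  have h := cc_pos k
  have h1 : ((2 * k + 1 : ℚ) / (2 * k + 2)) ≤ 1 := by
    rw [div_le_one (by positivity)]
    linarith
  calc cc k * ((2 * k + 1) / (2 * k + 2)) ≤ cc k * 1 := by
        exact mul_le_mul_of_nonneg_left h1 h.le
    _ = cc k := mul_one _

theorem cc_sq (k t : ℕ) : cc k ^ 2 * (4 * k + 1) ≤ cc (k + t) ^ 2 * (4 * (k + t) + 1) := by
  induction t with
  | zero => simp
  | succ t ih =>
    refine ih.trans ?_
    have hs := cc_succ (k + t)
    rw [← add_assoc, hs]
    set n : ℚ := ((k + t : ℕ) : ℚ) with hn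
    have hn' : (k : ℚ) + (t : ℚ) = n := by rw [hn]; push_cast; ring
    have hn0 : 0 ≤ n := by positivity
    have hc2 : 0 ≤ cc (k + t) ^ 2 := by positivity
    have key : (4 * n + 1) ≤ ((2 * n + 1) / (2 * n + 2)) ^ 2 * (4 * (n + 1) + 1) := by
      rw [div_pow, div_mul_eq_mul_div, le_div_iff₀ (by positivity)]
      nlinarith
    have e : (k : ℚ) + ((t + 1 : ℕ) : ℚ) = n + 1 := by
      rw [← hn']; push_cast; ring
    rw [hn', e, mul_pow, mul_assoc]
    exact mul_le_mul_of_nonneg_left key hc2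

theorem ccfacts : S_CC := by
  refine ⟨M0_eq, ?_, cc_succ, cc_pos, cc_anti, cc_sq, cc_choose⟩
  intro r
  have h := M0_eq (r + 1)
  have e : (r + 1 + 1) / 2 = r / 2 + 1 := by omega
  rw [e] at h
  exact h

end Pool.Agent.W632.AHC
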